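import Pool.Agent.Lib.MP_16285c_agX.Box.All
import Pool.Agent.Lib.MP_16285c_agX.Top.AllX
import Pool.Agent.Lib.MP_16285c_agX.Dgv.All
import Pool.Agent.Lib.MP_16285c_agX.Gro.All
import Pool.Agent.Lib.MP_16285c_agX.G.AmbX
import Pool.Agent.Lib.MP_16285c_agX.G.JacX
import Pool.Agent.Lib.MP_16285c_agX.G.NoInvX
import Pool.Agent.Lib.MP_16285c_agX.G.PrimX
import Pool.Agent.Lib.MP_16285c_agX.G.PtsX
import Pool.Agent.Lib.MP_16285c_agX.G.VarX
import Pool.Agent.Lib.MP_16285c_agX.G.ZeroX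

/-!
# Dense orbits on irreducible varieties of every dimension: the theorem (note 4936)
-/

set_option autoImplicit false

namespace Pool.Agent.Lib.MP_16285c_agX

/-- The theorem for varieties. -/
theorem var : StmtVarX :=
  tVarX (cModelX aBoxX cCanX) tPrimX (tAmbX tJacX tHcn) (tNoInvX tHcn) (tPtsX tHat) tHcn aGroX tZeroX

end Pool.Agent.Lib.MP_16285c_agX
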